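import Pool.Agent.Q234.BS.Defs

namespace Pool.Agent.Q234.BS

open MeasureTheory Complex Finset Matrix
open scoped Real ComplexConjugate ComplexOrder

lemma gen_two : gen 2 = !![0, -(Real.sqrt 2 : ℂ), 0; (Real.sqrt 2 : ℂ), 0, -(Real.sqrt 2 : ℂ);
    0, (Real.sqrt 2 : ℂ), 0] := by
  have e1 : ((1 : ℝ) + 1) * (2 - 1) = 2 := by norm_num
  ext i j
  fin_cases i <;> fin_cases j <;> simp [gen, e1]

noncomputable def PP : Matrix (Fin 3) (Fin 3) ℂ :=
  !![1, 1, 1; 0, -(Real.sqrt 2 : ℂ) * I, (Real.sqrt 2 : ℂ) * I; 1, -1, -1]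

noncomputable def QQ : Matrix (Fin 3) (Fin 3) ℂ :=
  !![1 / 2, 0, 1 / 2; 1 / 4, (Real.sqrt 2 : ℂ) * I / 4, -1 / 4;
    1 / 4, -(Real.sqrt 2 : ℂ) * I / 4, -1 / 4]

lemma sq2 : (Real.sqrt 2 : ℂ) ^ 2 = 2 := by
  rw [← Complex.ofReal_pow, Real.sq_sqrt (by norm_num)]
  norm_num

lemma PQ : PP * QQ = 1 := by
  have h := sq2
  have hI := Complex.I_sq
  ext i j
  fin_cases i <;> fin_cases j <;> simp [PP, QQ, Matrix.mul_apply, Fin.sum_univ_three] <;>
    first
    | ring1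
    | linear_combination (-(1 / 2) * I ^ 2) * h - hI

/-- the eigenvalues of the generator for two photons -/
noncomputable def ev : Fin 3 → ℂ := ![0, 2 * I, -(2 * I)]

lemma entry (d : Fin 3 → ℂ) (i j : Fin 3) : (PP * Matrix.diagonal d * QQ) i j =
    PP i 0 * d 0 * QQ 0 j + PP i 1 * d 1 * QQ 1 j + PP i 2 * d 2 * QQ 2 j := by
  rw [Matrix.mul_apply, Fin.sum_univ_three]
  simp only [Matrix.mul_diagonal]

lemma gen_eq : gen 2 = PP * Matrix.diagonal ev * QQ := by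
  have h := sq2
  have hI := Complex.I_sq
  rw [gen_two]
  ext i j
  rw [entry]
  fin_cases i <;> fin_cases j <;>
    simp [PP, QQ, ev] <;>
    first
    | ring1
    | linear_combination (Real.sqrt 2 : ℂ) * hI
    | linear_combination (-(Real.sqrt 2 : ℂ)) * hI

lemma beam_two (i : Fin 3) : beam 2 i 2 = ![1 / 2, -(Real.sqrt 2 : ℂ) / 2, 1 / 2] i := by
  have hu : IsUnit PP := by
    have := Matrix.isUnit_iff_isUnit_det PP
    rw [this]
    have h2 : PP.det * QQ.det = 1 := by rw [← Matrix.det_mul, PQ, Matrix.det_one]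
    exact IsUnit.of_mul_eq_one _ h2
  have hinv : PP⁻¹ = QQ := Matrix.inv_eq_right_inv PQ
  have h1 : ((π / 4 : ℝ) : ℂ) • gen 2 =
      PP * Matrix.diagonal (fun i => ((π / 4 : ℝ) : ℂ) * ev i) * PP⁻¹ := by
    rw [gen_eq, hinv]
    have : Matrix.diagonal (fun i => ((π / 4 : ℝ) : ℂ) * ev i) =
        ((π / 4 : ℝ) : ℂ) • Matrix.diagonal ev := by
      ext i j
      by_cases h : i = j
      · subst h; simp
      · simp [h]
    rw [this, Matrix.mul_smul, Matrix.smul_mul]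
  have h2 : beam 2 = PP * Matrix.diagonal (fun i => cexp (((π / 4 : ℝ) : ℂ) * ev i)) * QQ := by
    unfold beam
    rw [h1, Matrix.exp_conj _ _ hu, Matrix.exp_diagonal, hinv]
    have h3 : NormedSpace.exp (fun i => ((π / 4 : ℝ) : ℂ) * ev i) =
        fun i => cexp (((π / 4 : ℝ) : ℂ) * ev i) := by
      funext i
      rw [Pi.coe_exp, Complex.exp_eq_exp_ℂ]
    rw [h3]
  have e1 : cexp (((π / 4 : ℝ) : ℂ) * (2 * I)) = I := by
    have : ((π / 4 : ℝ) : ℂ) * (2 * I) = (π : ℂ) / 2 * I := by push_cast; ring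
    rw [this, Complex.exp_pi_div_two_mul_I]
  have e2 : cexp (((π / 4 : ℝ) : ℂ) * (-(2 * I))) = -I := by
    rw [mul_neg, Complex.exp_neg, e1, Complex.inv_I]
  have e0 : cexp (((π / 4 : ℝ) : ℂ) * 0) = 1 := by rw [mul_zero, Complex.exp_zero]
  have hI := Complex.I_sq
  have hv0 : ev 0 = 0 := rfl
  have hv1 : ev 1 = 2 * I := rfl
  have hv2 : ev 2 = -(2 * I) := rfl
  rw [h2, entry, hv0, hv1, hv2, e0, e1, e2]
  fin_cases i <;>
    simp [PP, QQ] <;>
    first
    | ring1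
    | linear_combination (Real.sqrt 2 : ℂ) / 2 * hI

end Pool.Agent.Q234.BS
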