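import Pool.Agent.Q234.BS.Gauss

/-!
# Wigner functions of Fock-bounded states and the balanced beam splitter
-/

namespace Pool.Agent.Q234.BS

open MeasureTheory Complex Finset
open scoped Real ComplexConjugate ComplexOrder

/-- The `n`-th Fock state in the position representation: the normalised Hermite function
`(n! √π)^{-1/2} He_n(√2 x) exp(-x²/2)`, with `He_n` the probabilists' Hermite polynomial. -/
noncomputable def fock (n : ℕ) (x : ℝ) : ℝ :=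
  π ^ (-(1 / 4) : ℝ) * (Real.sqrt (n.factorial : ℝ))⁻¹ *
    Polynomial.aeval (Real.sqrt 2 * x) (Polynomial.hermite n) * Real.exp (-x ^ 2 / 2)

/-- The kernel `⟨x|ρ|y⟩` of the operator `∑_{m,n<K} ρ m n |m⟩⟨n|`. -/
noncomputable def kern (K : ℕ) (ρ : ℕ → ℕ → ℂ) (x y : ℝ) : ℂ :=
  ∑ m ∈ range K, ∑ n ∈ range K, ρ m n * (fock m x : ℂ) * (fock n y : ℂ)

/-- The Wigner function `(1/π) ∫ ⟨x+y|ρ|x-y⟩ exp(-2ipy) dy`. -/
noncomputable def wigner (K : ℕ) (ρ : ℕ → ℕ → ℂ) (x p : ℝ) : ℂ :=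
  1 / (π : ℂ) * ∫ y : ℝ, kern K ρ (x + y) (x - y) * cexp (-2 * I * p * y)

/-- The Fock-bounded Wigner-positive states: density matrices (positive semidefinite, trace one)
with finitely many nonzero entries `⟨m|ρ|n⟩`, whose Wigner function is nonnegative everywhere. -/
def IsWignerPositiveState (ρ : ℕ → ℕ → ℂ) : Prop :=
  ∃ K : ℕ, (∀ m n, K ≤ m ∨ K ≤ n → ρ m n = 0) ∧
    (∀ v : ℕ → ℂ, 0 ≤ ∑ m ∈ range K, ∑ n ∈ range K, conj (v m) * ρ m n * v n) ∧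
    ∑ m ∈ range K, ρ m m = 1 ∧
    ∀ x p : ℝ, 0 ≤ wigner K ρ x p

/-- Fock-bounded unit vectors. -/
def IsFockBoundedUnit (ψ : ℕ → ℂ) : Prop :=
  ∃ K : ℕ, (∀ n, K ≤ n → ψ n = 0) ∧ ∑ n ∈ range K, ‖ψ n‖ ^ 2 = 1

/-- The matrix of `a† b - a b†` on the span of `|k⟩ ⊗ |N-k⟩`, `k = 0, …, N` (all states of two modes
with `N` photons): `a† b |k, N-k⟩ = √((k+1)(N-k)) |k+1, N-k-1⟩`. -/
noncomputable def gen (N : ℕ) : Matrix (Fin (N + 1)) (Fin (N + 1)) ℂ :=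
  Matrix.of fun i j =>
    (if (i : ℕ) = j + 1 then ((Real.sqrt (((j : ℕ) + 1) * (N - (j : ℕ))) : ℝ) : ℂ) else 0) -
    (if (j : ℕ) = i + 1 then ((Real.sqrt (((i : ℕ) + 1) * (N - (i : ℕ))) : ℝ) : ℂ) else 0)

/-- The `N`-photon block of the balanced beam splitter `exp((π/4)(a† b - a b†))`. -/
noncomputable def beam (N : ℕ) : Matrix (Fin (N + 1)) (Fin (N + 1)) ℂ :=
  NormedSpace.exp (((π / 4 : ℝ) : ℂ) • gen N)

/-- The amplitude `⟨k, n| U |ψ ⊗ φ⟩` of the two-mode state after the beam splitter. -/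
noncomputable def amp (ψ φ : ℕ → ℂ) (k n : ℕ) : ℂ :=
  ∑ j : Fin (k + n + 1), beam (k + n) ⟨k, by omega⟩ j * (ψ j * φ (k + n - j))

/-- The beam-splitter state `Tr₂ [U (|ψ⟩⟨ψ| ⊗ |φ⟩⟨φ|) U†]`, by its matrix in the Fock basis. -/
noncomputable def bsState (ψ φ : ℕ → ℂ) (k k' : ℕ) : ℂ :=
  ∑' n : ℕ, amp ψ φ k n * conj (amp ψ φ k' n)

end Pool.Agent.Q234.BS
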