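import Mathlib

/-!
# Gaussian moments with a phase
-/

namespace Pool.Agent.Q234.BS

open MeasureTheory Complex
open scoped Real

set_option autoImplicit false

/-- the integrand -/
noncomputable def g (j : ℕ) (p y : ℝ) : ℂ := (y : ℂ) ^ j * cexp (-(y : ℂ) ^ 2 - 2 * I * p * y)

lemma g_norm (j : ℕ) (p y : ℝ) : ‖g j p y‖ = |y ^ j * Real.exp (-1 * y ^ 2)| := by
  unfold g
  rw [norm_mul, norm_pow, Complex.norm_real, Complex.norm_exp, abs_mul, abs_pow, Real.norm_eq_abs,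
    abs_of_pos (Real.exp_pos _)]
  congr 2
  have h1 : (-(y : ℂ) ^ 2 - 2 * I * p * y).re = -1 * y ^ 2 := by
    have : -(y : ℂ) ^ 2 - 2 * I * p * y = ((-y ^ 2 : ℝ) : ℂ) + ((-2 * p * y : ℝ) : ℂ) * I := by
      push_cast; ring
    rw [this, Complex.add_re, Complex.ofReal_re, Complex.re_ofReal_mul, Complex.I_re]
    ring
  exact h1

lemma g_int (j : ℕ) (p : ℝ) : Integrable (g j p) := by
  have h1 : Integrable fun y : ℝ => y ^ j * Real.exp (-1 * y ^ 2) := by
    have h := integrable_rpow_mul_exp_neg_mul_sq (b := 1) one_pos (s := (j : ℝ))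
      (lt_of_lt_of_le (by norm_num) (Nat.cast_nonneg j))
    simpa only [Real.rpow_natCast] using h
  refine h1.mono ?_ (Filter.Eventually.of_forall fun y => ?_)
  · unfold g
    have : Continuous fun y : ℝ => (y : ℂ) ^ j * cexp (-(y : ℂ) ^ 2 - 2 * I * p * y) := by
      fun_prop
    exact this.aestronglyMeasurable
  · rw [g_norm, Real.norm_eq_abs]

/-- the moments -/
noncomputable def Im (j : ℕ) (p : ℝ) : ℂ := ∫ y : ℝ, g j p y

lemma Im_zero (p : ℝ) : Im 0 p = (Real.sqrt π * Real.exp (-p ^ 2) : ℝ) := by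
  have h := fourierIntegral_gaussian (b := 1) (by simp) (-2 * (p : ℂ))
  unfold Im g
  have e : ∀ y : ℝ, (y : ℂ) ^ 0 * cexp (-(y : ℂ) ^ 2 - 2 * I * p * y) =
      cexp (I * (-2 * (p : ℂ)) * y) * cexp (-1 * (y : ℂ) ^ 2) := by
    intro y
    rw [pow_zero, one_mul, ← Complex.exp_add]
    congr 1; ring
  simp only [e]
  rw [h]
  push_cast
  congr 1
  · rw [div_one, Real.sqrt_eq_rpow, Complex.ofReal_cpow Real.pi_pos.le]
    push_cast
    rfl
  · congr 1; ring

lemma Im_succ (j : ℕ) (p : ℝ) : Im (j + 1) p = (j : ℂ) / 2 * Im (j - 1) p - I * p * Im j p := by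
  have hd : ∀ y : ℝ, HasDerivAt (g j p) ((j : ℂ) * g (j - 1) p y - 2 * g (j + 1) p y -
      2 * I * p * g j p y) y := by
    intro y
    have h1 : HasDerivAt (fun z : ℂ => z ^ j * cexp (-z ^ 2 - 2 * I * p * z))
        ((j : ℂ) * (y : ℂ) ^ (j - 1) * cexp (-(y : ℂ) ^ 2 - 2 * I * p * y) + (y : ℂ) ^ j *
          (cexp (-(y : ℂ) ^ 2 - 2 * I * p * y) * (-(2 * (y : ℂ)) - 2 * I * p))) (y : ℂ) := by
      have a1 : HasDerivAt (fun z : ℂ => z ^ j) ((j : ℂ) * (y : ℂ) ^ (j - 1)) (y : ℂ) :=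
        hasDerivAt_pow j (y : ℂ)
      have a2 : HasDerivAt (fun z : ℂ => -z ^ 2 - 2 * I * p * z) (-(2 * (y : ℂ)) - 2 * I * p)
          (y : ℂ) := by
        have b1 : HasDerivAt (fun z : ℂ => -z ^ 2) (-(2 * (y : ℂ))) (y : ℂ) := by
          have b0 : HasDerivAt (fun z : ℂ => z ^ 2) (2 * (y : ℂ)) (y : ℂ) := by
            simpa using hasDerivAt_pow 2 (y : ℂ)
          exact b0.fun_neg
        have b2 : HasDerivAt (fun z : ℂ => 2 * I * (p : ℂ) * z) (2 * I * p) (y : ℂ) := by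
          simpa using (hasDerivAt_id (y : ℂ)).const_mul (2 * I * (p : ℂ))
        exact b1.fun_sub b2
      exact a1.mul a2.cexp
    have h2 := h1.comp_ofReal
    refine h2.congr_deriv ?_
    unfold g
    ring
  have hi : Integrable fun y : ℝ => (j : ℂ) * g (j - 1) p y - 2 * g (j + 1) p y -
      2 * I * p * g j p y :=
    (((g_int (j - 1) p).const_mul _).sub ((g_int (j + 1) p).const_mul _)).sub
      ((g_int j p).const_mul _)
  have h0 := integral_eq_zero_of_hasDerivAt_of_integrable hd hi (g_int j p)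
  have e : ∫ y : ℝ, ((j : ℂ) * g (j - 1) p y - 2 * g (j + 1) p y - 2 * I * p * g j p y) =
      (j : ℂ) * Im (j - 1) p - 2 * Im (j + 1) p - 2 * I * p * Im j p := by
    unfold Im
    have i1 := (g_int (j - 1) p).const_mul (j : ℂ)
    have i2 := (g_int (j + 1) p).const_mul (2 : ℂ)
    have i3 := (g_int j p).const_mul (2 * I * (p : ℂ))
    have i4 : Integrable (fun y => (j : ℂ) * g (j - 1) p y - 2 * g (j + 1) p y) := i1.sub i2
    rw [integral_sub i4 i3, integral_sub i1 i2]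
    simp only [integral_const_mul]
  rw [e] at h0
  linear_combination (-1 / 2) * h0

lemma Im_one (p : ℝ) : Im 1 p = -(I * p) * Im 0 p := by
  have := Im_succ 0 p
  simpa using this

lemma Im_two (p : ℝ) : Im 2 p = (1 / 2 - (p : ℂ) ^ 2) * Im 0 p := by
  have h := Im_succ 1 p
  norm_num at h
  rw [h, Im_one]
  linear_combination ((p : ℂ) ^ 2 * Im 0 p) * Complex.I_sq

lemma Im_three (p : ℝ) : Im 3 p = (-(3 / 2) * I * p + I * (p : ℂ) ^ 3) * Im 0 p := by
  have h := Im_succ 2 p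
  norm_num at h
  rw [h, Im_one, Im_two]
  ring

lemma Im_four (p : ℝ) : Im 4 p = (3 / 4 - 3 * (p : ℂ) ^ 2 + (p : ℂ) ^ 4) * Im 0 p := by
  have h := Im_succ 3 p
  norm_num at h
  rw [h, Im_three, Im_two]
  linear_combination ((3 / 2) * (p : ℂ) ^ 2 * Im 0 p - (p : ℂ) ^ 4 * Im 0 p) * Complex.I_sq

/-- integrals of polynomials of degree four -/
lemma poly_int (a b c d e : ℂ) (p : ℝ) :
    ∫ y : ℝ, (a + b * y + c * (y : ℂ) ^ 2 + d * (y : ℂ) ^ 3 + e * (y : ℂ) ^ 4) *
      cexp (-(y : ℂ) ^ 2 - 2 * I * p * y) =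
    a * Im 0 p + b * Im 1 p + c * Im 2 p + d * Im 3 p + e * Im 4 p := by
  have h : ∀ y : ℝ, (a + b * y + c * (y : ℂ) ^ 2 + d * (y : ℂ) ^ 3 + e * (y : ℂ) ^ 4) *
      cexp (-(y : ℂ) ^ 2 - 2 * I * p * y) =
      a * g 0 p y + b * g 1 p y + c * g 2 p y + d * g 3 p y + e * g 4 p y := by
    intro y; unfold g; ring
  simp only [h]
  have i0 := (g_int 0 p).const_mul a
  have i1 := (g_int 1 p).const_mul b
  have i2 := (g_int 2 p).const_mul c
  have i3 := (g_int 3 p).const_mul d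
  have i4 := (g_int 4 p).const_mul e
  have j1 : Integrable (fun y => a * g 0 p y + b * g 1 p y) := i0.add i1
  have j2 : Integrable (fun y => a * g 0 p y + b * g 1 p y + c * g 2 p y) := j1.add i2
  have j3 : Integrable (fun y => a * g 0 p y + b * g 1 p y + c * g 2 p y + d * g 3 p y) := j2.add i3
  rw [integral_add j3 i4, integral_add j2 i3, integral_add j1 i2, integral_add i0 i1]
  simp only [integral_const_mul]
  rfl

end Pool.Agent.Q234.BS
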