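import Pool.Agent.Q234.BS.State

namespace Pool.Agent.Q234.BS

open MeasureTheory Complex Finset
open scoped Real ComplexConjugate ComplexOrder

/-- `ψ = (√2 |2⟩ - |0⟩)/√3` -/
noncomputable def psi : ℕ → ℂ
  | 0 => -(((Real.sqrt 3)⁻¹ : ℝ) : ℂ)
  | 2 => ((Real.sqrt 2 * (Real.sqrt 3)⁻¹ : ℝ) : ℂ)
  | _ => 0

/-- the vacuum -/
def vac : ℕ → ℂ
  | 0 => 1
  | _ => 0

lemma psi_unit : IsFockBoundedUnit psi := by
  refine ⟨3, fun n hn => ?_, ?_⟩
  · obtain ⟨k, rfl⟩ := Nat.exists_eq_add_of_le' hn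
    rfl
  · have h2 : Real.sqrt 2 ^ 2 = 2 := Real.sq_sqrt (by norm_num)
    have h3 : Real.sqrt 3 ^ 2 = 3 := Real.sq_sqrt (by norm_num)
    simp only [Finset.sum_range_succ, Finset.sum_range_zero, psi]
    rw [norm_neg, Complex.norm_real, Complex.norm_real, norm_zero, Real.norm_eq_abs,
      Real.norm_eq_abs, sq_abs, sq_abs, mul_pow, inv_pow, h2, h3]
    norm_num

lemma vac_unit : IsFockBoundedUnit vac := by
  refine ⟨1, fun n hn => ?_, ?_⟩
  · obtain ⟨k, rfl⟩ := Nat.exists_eq_add_of_le' hn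
    rfl
  · simp [vac]

lemma amp_vac (ψ : ℕ → ℂ) (k n : ℕ) :
    amp ψ vac k n = beam (k + n) ⟨k, by omega⟩ (Fin.last (k + n)) * ψ (k + n) := by
  unfold amp
  rw [Finset.sum_eq_single (Fin.last (k + n))]
  · simp [vac]
  · intro j _ hj
    have hlt : (j : ℕ) < k + n := by
      have h1 := j.2
      rcases Nat.lt_or_ge (j : ℕ) (k + n) with h | h
      · exact h
      · exfalso; apply hj
        apply Fin.ext
        rw [Fin.val_last]; omega
    obtain ⟨c, hc⟩ := Nat.exists_eq_add_of_lt hlt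
    have : k + n - (j : ℕ) = c + 1 := by omega
    rw [this]
    simp [vac]
  · intro h; exact absurd (Finset.mem_univ _) h

lemma beam_zero : beam 0 = 1 := by
  have h : gen 0 = 0 := by
    ext i j
    fin_cases i; fin_cases j
    simp [gen]
  unfold beam
  rw [h, smul_zero, NormedSpace.exp_zero]

/-- the amplitudes -/
noncomputable def tab : ℕ → ℕ → ℂ
  | 0, 0 => -(((Real.sqrt 3)⁻¹ : ℝ) : ℂ)
  | 1, 1 => -(((Real.sqrt 3)⁻¹ : ℝ) : ℂ)
  | 2, 0 => ((Real.sqrt 2 * (Real.sqrt 3)⁻¹ / 2 : ℝ) : ℂ)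
  | 0, 2 => ((Real.sqrt 2 * (Real.sqrt 3)⁻¹ / 2 : ℝ) : ℂ)
  | _, _ => 0

lemma psi_zero {n : ℕ} (h0 : n ≠ 0) (h2 : n ≠ 2) : psi n = 0 := by
  rcases n with _ | _ | _ | n
  · exact absurd rfl h0
  · rfl
  · exact absurd rfl h2
  · rfl

lemma tab_zero {k n : ℕ} (h0 : k + n ≠ 0) (h2 : k + n ≠ 2) : tab k n = 0 := by
  rcases k with _ | _ | _ | k <;> rcases n with _ | _ | _ | n <;>
    first
    | rfl
    | (exfalso; omega)

lemma amp_eq (k n : ℕ) : amp psi vac k n = tab k n := by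
  rw [amp_vac]
  by_cases h0 : k + n = 0
  · obtain ⟨rfl, rfl⟩ : k = 0 ∧ n = 0 := by omega
    have h1 : beam (0 + 0) ⟨0, by omega⟩ (Fin.last (0 + 0)) = 1 := by
      change beam 0 0 0 = 1
      rw [beam_zero]; simp
    rw [h1, one_mul]
    rfl
  · by_cases h2 : k + n = 2
    · have h22 : (Real.sqrt 2 : ℂ) ^ 2 = 2 := sq2
      obtain ⟨rfl, rfl⟩ | ⟨rfl, rfl⟩ | ⟨rfl, rfl⟩ : (k = 0 ∧ n = 2) ∨ (k = 1 ∧ n = 1) ∨
          (k = 2 ∧ n = 0) := by omega
      · have h1 : beam (0 + 2) ⟨0, by omega⟩ (Fin.last (0 + 2)) = 1 / 2 := beam_two 0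
        rw [h1]
        simp only [psi, tab]
        push_cast; ring
      · have h1 : beam (1 + 1) ⟨1, by omega⟩ (Fin.last (1 + 1)) = -(Real.sqrt 2 : ℂ) / 2 :=
          beam_two 1
        rw [h1]
        simp only [psi, tab]
        push_cast
        linear_combination (-((Real.sqrt 3 : ℂ))⁻¹ / 2) * h22
      · have h1 : beam (2 + 0) ⟨2, by omega⟩ (Fin.last (2 + 0)) = 1 / 2 := beam_two 2
        rw [h1]
        simp only [psi, tab]
        push_cast; ring
    · rw [psi_zero h0 h2, mul_zero, tab_zero h0 h2]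

lemma bs_eq (k k' : ℕ) : bsState psi vac k k' = st 0 k k' := by
  unfold bsState
  simp only [amp_eq]
  rw [tsum_eq_sum (s := range 3)]
  · have h2 : Real.sqrt 2 ^ 2 = 2 := Real.sq_sqrt (by norm_num)
    have h3 : (Real.sqrt 3)⁻¹ ^ 2 = 1 / 3 := by
      rw [inv_pow, Real.sq_sqrt (by norm_num)]; norm_num
    simp only [Finset.sum_range_succ, Finset.sum_range_zero]
    rcases k with _ | _ | _ | k <;> rcases k' with _ | _ | _ | k' <;>
      simp only [tab, st, map_zero, map_neg, Complex.conj_ofReal, mul_zero, zero_mul, add_zero,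
        zero_add, neg_mul, mul_neg, neg_neg, ← Complex.ofReal_mul, ← Complex.ofReal_add,
        ← Complex.ofReal_neg] <;>
      refine congrArg _ ?_
    · linear_combination (1 + Real.sqrt 2 ^ 2 / 4) * h3 + (1 / 12) * h2
    · linear_combination (-Real.sqrt 2 / 2) * h3
    · linear_combination h3
    · linear_combination (-Real.sqrt 2 / 2) * h3
    · linear_combination (Real.sqrt 2 ^ 2 / 4) * h3 + (1 / 12) * h2
  · intro n hn
    have hn3 : 3 ≤ n := by simpa using hn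
    rw [tab_zero (by omega) (by omega), zero_mul]

end Pool.Agent.Q234.BS
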