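import Pool.Agent.Q234.BS.Beam

namespace Pool.Agent.Q234.BS

open MeasureTheory Complex Finset
open scoped Real ComplexConjugate ComplexOrder

lemma aeval_h2 (z : ℝ) : Polynomial.aeval z (Polynomial.hermite 2) = z ^ 2 - 1 := by
  rw [Polynomial.hermite_succ, Polynomial.hermite_one]
  simp
  ring

lemma fock_zero (x : ℝ) : fock 0 x = π ^ (-(1 / 4) : ℝ) * Real.exp (-x ^ 2 / 2) := by
  simp [fock]

lemma fock_one (x : ℝ) : fock 1 x = π ^ (-(1 / 4) : ℝ) * (Real.sqrt 2 * x) *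
    Real.exp (-x ^ 2 / 2) := by
  simp [fock]

lemma fock_two (x : ℝ) : fock 2 x = π ^ (-(1 / 4) : ℝ) * (Real.sqrt 2)⁻¹ * (2 * x ^ 2 - 1) *
    Real.exp (-x ^ 2 / 2) := by
  have h : (Real.sqrt 2 * x) ^ 2 = 2 * x ^ 2 := by
    rw [mul_pow, Real.sq_sqrt (by norm_num)]
  unfold fock
  rw [aeval_h2, h]
  simp [Nat.factorial]

/-- the two states (`e = ±1/20`) and the beam-splitter state (`e = 0`) -/
noncomputable def st (e : ℝ) : ℕ → ℕ → ℂ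
  | 0, 0 => ((1 / 2 : ℝ) : ℂ)
  | 1, 1 => ((1 / 3 - e / 2 : ℝ) : ℂ)
  | 2, 2 => ((1 / 6 + e / 2 : ℝ) : ℂ)
  | 0, 2 => (((-1 / 6 + e / 4) * Real.sqrt 2 : ℝ) : ℂ)
  | 2, 0 => (((-1 / 6 + e / 4) * Real.sqrt 2 : ℝ) : ℂ)
  | _, _ => 0

lemma st_zero (e : ℝ) (m n : ℕ) (h : 3 ≤ m ∨ 3 ≤ n) : st e m n = 0 := by
  rcases h with h | h
  · obtain ⟨k, rfl⟩ := Nat.exists_eq_add_of_le' h
    rfl
  · obtain ⟨k, rfl⟩ := Nat.exists_eq_add_of_le' h
    rcases m with _ | _ | _ | m <;> rfl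

lemma sum_three (f : ℕ → ℕ → ℂ) (e : ℝ) :
    ∑ m ∈ range 3, ∑ n ∈ range 3, st e m n * f m n = ((1 / 2 : ℝ) : ℂ) * f 0 0 +
      ((1 / 3 - e / 2 : ℝ) : ℂ) * f 1 1 + ((1 / 6 + e / 2 : ℝ) : ℂ) * f 2 2 +
      (((-1 / 6 + e / 4) * Real.sqrt 2 : ℝ) : ℂ) * (f 0 2 + f 2 0) := by
  simp only [Finset.sum_range_succ, Finset.sum_range_zero, st]
  ring

lemma st_pos (e : ℝ) (h1 : -1 / 20 ≤ e) (h2 : e ≤ 1 / 20) (v : ℕ → ℂ) :
    0 ≤ ∑ m ∈ range 3, ∑ n ∈ range 3, conj (v m) * st e m n * v n := by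
  have hs := sq2
  have e1 : ∑ m ∈ range 3, ∑ n ∈ range 3, conj (v m) * st e m n * v n =
      ∑ m ∈ range 3, ∑ n ∈ range 3, st e m n * (conj (v m) * v n) := by
    refine Finset.sum_congr rfl fun m _ => Finset.sum_congr rfl fun n _ => ?_
    ring
  set w : ℂ := v 0 + ((2 * ((-1 / 6 + e / 4) * Real.sqrt 2) : ℝ) : ℂ) * v 2 with hw
  have e2 : ∑ m ∈ range 3, ∑ n ∈ range 3, conj (v m) * st e m n * v n =
      ((1 / 2 * normSq w + (1 / 3 - e / 2) * normSq (v 1) +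
        (1 / 18 + 5 * e / 6 - e ^ 2 / 4) * normSq (v 2) : ℝ) : ℂ) := by
    rw [e1, sum_three]
    have q0 := Complex.normSq_eq_conj_mul_self (z := w)
    have q1 := Complex.normSq_eq_conj_mul_self (z := v 1)
    have q2 := Complex.normSq_eq_conj_mul_self (z := v 2)
    have qw : conj w = conj (v 0) +
        ((2 * ((-1 / 6 + e / 4) * Real.sqrt 2) : ℝ) : ℂ) * conj (v 2) := by
      rw [hw, map_add, map_mul, Complex.conj_ofReal]
    push_cast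
    rw [q0, q1, q2, qw, hw]
    push_cast
    linear_combination (-2 * (-1 / 6 + (e : ℂ) / 4) ^ 2 * conj (v 2) * v 2) * hs
  rw [e2]
  have : (0 : ℝ) ≤ 1 / 2 * normSq w + (1 / 3 - e / 2) * normSq (v 1) +
        (1 / 18 + 5 * e / 6 - e ^ 2 / 4) * normSq (v 2) := by
    have p0 := Complex.normSq_nonneg w
    have p1 := Complex.normSq_nonneg (v 1)
    have p2 := Complex.normSq_nonneg (v 2)
    have c1 : 0 ≤ 1 / 3 - e / 2 := by linarith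
    have c2 : 0 ≤ 1 / 18 + 5 * e / 6 - e ^ 2 / 4 := by nlinarith
    positivity
  exact_mod_cast this

lemma pi_mul : ((π ^ (-(1 / 4) : ℝ) : ℝ)) * ((π ^ (-(1 / 4) : ℝ) : ℝ)) * Real.sqrt π = 1 := by
  rw [Real.sqrt_eq_rpow, ← Real.rpow_add Real.pi_pos, ← Real.rpow_add Real.pi_pos]
  norm_num

lemma wigner_st (e x p : ℝ) : wigner 3 (st e) x p =
    ((1 / π * Real.exp (-(x ^ 2 + p ^ 2)) *
      ((1 / 3 + e) * (x ^ 2 + p ^ 2 - 1) ^ 2 + (4 / 3 - 2 * e) * p ^ 2) : ℝ) : ℂ) := by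
  set N : ℝ := π ^ (-(1 / 4) : ℝ) with hN
  set s : ℝ := Real.sqrt 2 with hs
  have hs2 : s ^ 2 = 2 := Real.sq_sqrt (by norm_num)
  have hs0 : s ≠ 0 := by positivity
  have hsi : s * s⁻¹ = 1 := mul_inv_cancel₀ hs0
  set E : ℝ := Real.exp (-x ^ 2) with hE
  have hexp : ∀ y : ℝ, Real.exp (-(x + y) ^ 2 / 2) * Real.exp (-(x - y) ^ 2 / 2) =
      E * Real.exp (-y ^ 2) := by
    intro y
    rw [← Real.exp_add, hE, ← Real.exp_add]
    congr 1; ring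
  -- the kernel
  have hk : ∀ y : ℝ, kern 3 (st e) (x + y) (x - y) =
      ((N * N * E * (((1 / 2 + (1 / 3 - e / 2) * 2 * x ^ 2 +
        (1 / 6 + e / 2) * (1 / 2) * (4 * x ^ 4 - 4 * x ^ 2 + 1) + (-1 / 6 + e / 4) *
        (4 * x ^ 2 - 2))) + ((-2) * (1 / 3 - e / 2) + (1 / 6 + e / 2) * (1 / 2) *
        (-8 * x ^ 2 - 4) + 4 * (-1 / 6 + e / 4)) * y ^ 2 + ((1 / 6 + e / 2) * 2) * y ^ 4) *
        Real.exp (-y ^ 2) : ℝ) : ℂ) := by
    intro y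
    have h0 : kern 3 (st e) (x + y) (x - y) = ∑ m ∈ range 3, ∑ n ∈ range 3, st e m n *
        ((fock m (x + y) * fock n (x - y) : ℝ) : ℂ) := by
      unfold kern
      refine Finset.sum_congr rfl fun m _ => Finset.sum_congr rfl fun n _ => ?_
      push_cast; ring
    rw [h0, sum_three]
    simp only [fock_zero, fock_one, fock_two, ← hN, ← hs]
    simp only [← Complex.ofReal_mul, ← Complex.ofReal_add]
    refine congrArg _ ?_
    have hsi2 : s⁻¹ ^ 2 = 1 / 2 := by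
      rw [inv_pow, hs2]; norm_num
    have hx := hexp y
    generalize Real.exp (-(x + y) ^ 2 / 2) = A at *
    generalize Real.exp (-(x - y) ^ 2 / 2) = B at *
    generalize Real.exp (-y ^ 2) = C at *
    have : N * N * E * (((1 / 2 + (1 / 3 - e / 2) * 2 * x ^ 2 +
        (1 / 6 + e / 2) * (1 / 2) * (4 * x ^ 4 - 4 * x ^ 2 + 1) + (-1 / 6 + e / 4) *
        (4 * x ^ 2 - 2))) + ((-2) * (1 / 3 - e / 2) + (1 / 6 + e / 2) * (1 / 2) *
        (-8 * x ^ 2 - 4) + 4 * (-1 / 6 + e / 4)) * y ^ 2 + ((1 / 6 + e / 2) * 2) * y ^ 4) * C =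
        N * N * (((1 / 2 + (1 / 3 - e / 2) * 2 * x ^ 2 +
        (1 / 6 + e / 2) * (1 / 2) * (4 * x ^ 4 - 4 * x ^ 2 + 1) + (-1 / 6 + e / 4) *
        (4 * x ^ 2 - 2))) + ((-2) * (1 / 3 - e / 2) + (1 / 6 + e / 2) * (1 / 2) *
        (-8 * x ^ 2 - 4) + 4 * (-1 / 6 + e / 4)) * y ^ 2 + ((1 / 6 + e / 2) * 2) * y ^ 4) *
        (A * B) := by rw [hx]; ring
    rw [this]
    linear_combination (N * N * A * B * (1 / 3 - e / 2) * (x + y) * (x - y)) * hs2 +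
      (N * N * A * B * (1 / 6 + e / 2) * (2 * (x + y) ^ 2 - 1) * (2 * (x - y) ^ 2 - 1)) * hsi2 +
      (N * N * A * B * (-1 / 6 + e / 4) * ((2 * (x + y) ^ 2 - 1) + (2 * (x - y) ^ 2 - 1))) * hsi
  -- the integrand
  have hi : ∀ y : ℝ, kern 3 (st e) (x + y) (x - y) * cexp (-2 * I * p * y) =
      (((N * N * E * (1 / 2 + (1 / 3 - e / 2) * 2 * x ^ 2 +
        (1 / 6 + e / 2) * (1 / 2) * (4 * x ^ 4 - 4 * x ^ 2 + 1) + (-1 / 6 + e / 4) *
        (4 * x ^ 2 - 2)) : ℝ) : ℂ) + 0 * y + ((N * N * E * ((-2) * (1 / 3 - e / 2) +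
        (1 / 6 + e / 2) * (1 / 2) * (-8 * x ^ 2 - 4) + 4 * (-1 / 6 + e / 4)) : ℝ) : ℂ) *
        (y : ℂ) ^ 2 + 0 * (y : ℂ) ^ 3 + ((N * N * E * ((1 / 6 + e / 2) * 2) : ℝ) : ℂ) *
        (y : ℂ) ^ 4) * cexp (-(y : ℂ) ^ 2 - 2 * I * p * y) := by
    intro y
    rw [hk y]
    have : cexp (-(y : ℂ) ^ 2 - 2 * I * p * y) = ((Real.exp (-y ^ 2) : ℝ) : ℂ) *
        cexp (-2 * I * p * y) := by
      rw [Complex.ofReal_exp, ← Complex.exp_add]
      congr 1; push_cast; ring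
    rw [this]
    push_cast
    ring
  unfold wigner
  simp only [hi]
  rw [poly_int, Im_two, Im_four, Im_zero]
  have hNpi : N * N * Real.sqrt π = 1 := pi_mul
  have hE2 : Real.exp (-(x ^ 2 + p ^ 2)) = E * Real.exp (-p ^ 2) := by
    rw [hE, ← Real.exp_add]; congr 1; ring
  rw [hE2]
  have hc : (N : ℂ) * N * (Real.sqrt π : ℝ) = 1 := by exact_mod_cast hNpi
  generalize Real.exp (-p ^ 2) = F at *
  generalize Real.sqrt π = R at *
  push_cast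
  linear_combination (1 / (π : ℂ) * E * F * ((1 / 3 + e) * (x ^ 2 + p ^ 2 - 1) ^ 2 +
    (4 / 3 - 2 * e) * p ^ 2)) * hc

end Pool.Agent.Q234.BS
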